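import Pool.Agent.Helper73.DC.St8

set_option autoImplicit false

/-! Project DC (helper73), MP_26f0da_lc: module G4 (helper84): derivations give runs (adapted from the module D4 of helper79). -/

namespace Pool.Agent.Helper84.DC

open Pool.Agent.Helper73.DC
open Finset
open scoped Classical

private theorem ev_stuck (lf cl : ℕ → ℕ) (rs : ℕ → ℕ → ℕ) (wt : ℕ → ℕ) (x v m k : ℕ) (h : Ev lf cl rs wt x v m k) :
    lf x = 0 → cl x = x → False := by
  induction h with
  | leaf x r hl => intro h0 _; omega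
  | node x r1 m1 n1 r2 m2 n2 h0 hc hr ih1 ih2 =>
    intro h0' hcl
    exact ih1 (by rw [hcl]; exact h0') (by rw [hcl]; exact hcl)

private theorem ev_leaf (lf cl : ℕ → ℕ) (rs : ℕ → ℕ → ℕ) (wt : ℕ → ℕ) (x v m k r : ℕ) (h : Ev lf cl rs wt x v m k)
    (hl : lf x = r + 1) : v = r := by
  cases h with
  | leaf _ _ hl' => omega
  | node _ r1 m1 n1 r2 m2 n2 h0 hc hr => omega

private theorem run_trans {α : Type} (M : MPDA α) (w : List α) :
    ∀ (l l' : ℕ) (c d e : M.Q × (Fin M.k → ℕ) × List M.Γ), M.Run w l c d → M.Run w l' d e → M.Run w (l + l') c e := by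
  intro l
  induction l with
  | zero =>
    intro l' c d e h1 h2
    have h1' : c = d := h1
    rw [Nat.zero_add, h1']
    exact h2
  | succ l ih =>
    intro l' c d e h1 h2
    obtain ⟨c', hs, hr⟩ := (h1 : ∃ c', M.Step w c c' ∧ M.Run w l c' d)
    rw [show l + 1 + l' = (l + l') + 1 by omega]
    exact ⟨c', hs, ih l' c' d e hr h2⟩

theorem mG4 : StG3 → StG4 := by
  intro h3
  intro α _ M T K num qn hD w x v m k hEv
  have hacE : ∀ r m n, Ev (T.lf w) (T.cl w) (T.rs w) (fun _ => 1) (T.ac w.length) r m n → r = 0 := by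
    intro r m n h
    obtain ⟨_, _, _, _, _, h7⟩ := h3 M T K num qn hD w (fun _ => 0) (fun _ => Nat.zero_le _)
    exact ev_leaf _ _ _ _ _ _ _ _ 0 h (by rw [h7])
  induction hEv with
  | leaf x r hl =>
    intro q β p hβ hp hx
    obtain ⟨h1, h2, h4, h5, h6, h7⟩ := h3 M T K num qn hD w p hp
    by_cases hacc : M.acc q
    · have e1 := h1 q β hβ hacc
      rw [← hx, hl] at e1
      have hr : r = 0 := by omega
      exact ⟨fun _ s => ⟨0, q, p, β ++ s, hacc, rfl⟩, fun hne => absurd hr hne⟩
    · match β, hβ, hx with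
      | [], _, hx =>
        have e1 := h2 q hacc
        rw [← hx, hl] at e1
        have hr : r = qn q * (w.length + 2) ^ M.k + pcd w.length p + 1 := by omega
        exact ⟨fun h0 => by omega, fun _ => ⟨q, p, hr, hp, fun s => ⟨0, rfl⟩⟩⟩
      | [Z], _, hx =>
        exfalso
        rcases htr : M.tr q Z (fun j => symAt w (p j)) with _ | ⟨q', d, γ⟩
        · have := (h5 q Z hacc htr).1
          rw [← hx, hl] at this
          omega
        · have := (h4 q Z q' d γ hacc htr).1
          rw [← hx, hl] at this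
          omega
      | Z :: Y :: β', hβ, hx =>
        exfalso
        have := (h6 q Z Y β' hβ hacc).1
        rw [← hx, hl] at this
        omega
  | node x r1 m1 n1 r2 m2 n2 h0 hc hr ih1 ih2 =>
    intro q β p hβ hp hx
    obtain ⟨h1, h2, h4, h5, h6, h7⟩ := h3 M T K num qn hD w p hp
    by_cases hacc : M.acc q
    · exfalso
      have e1 := h1 q β hβ hacc
      rw [← hx, h0] at e1
      omega
    · match β, hβ, hx with
      | [], _, hx =>
        exfalso
        have e1 := h2 q hacc
        rw [← hx, h0] at e1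
        omega
      | [Z], _, hx =>
        rcases htr : M.tr q Z (fun j => symAt w (p j)) with _ | ⟨q', d, γ⟩
        · exfalso
          have e2 := (h5 q Z hacc htr).2
          rw [← hx] at e2
          have hfull := Ev.node x r1 m1 n1 r2 m2 n2 h0 hc hr
          exact ev_stuck _ _ _ _ _ _ _ _ hfull h0 e2
        · obtain ⟨_, e2, e3⟩ := h4 q Z q' d γ hacc htr
          rw [← hx] at e2 e3
          rw [e2] at hc
          have hr1 := hacE _ _ _ hc
          have hγ := hD.hKt q Z _ q' d γ htr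
          have hnp : ∀ j, nps w d p j ≤ w.length + 1 := fun j => min_le_right _ _
          obtain ⟨j1, j2⟩ := ih2 q' γ (nps w d p) hγ hnp (by rw [hr1, e3])
          refine ⟨fun hv s => ?_, fun hv => ?_⟩
          · obtain ⟨l, q2, p2, s2, hq2, hrun⟩ := j1 hv s
            exact ⟨l + 1, q2, p2, s2, hq2, _, MPDA.Step.mk q q' p d Z s γ htr, hrun⟩
          · obtain ⟨q2, p2, k1, k2, k3⟩ := j2 hv
            refine ⟨q2, p2, k1, k2, fun s => ?_⟩
            obtain ⟨l, hrun⟩ := k3 s
            exact ⟨l + 1, _, MPDA.Step.mk q q' p d Z s γ htr, hrun⟩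
      | Z :: Y :: β', hβ, hx =>
        obtain ⟨_, e2, e4, e5⟩ := h6 q Z Y β' hβ hacc
        rw [← hx] at e2 e4 e5
        obtain ⟨i1, i2⟩ := ih1 q [Z] p (by simpa using hD.hK) hp e2
        by_cases hr1 : r1 = 0
        · rw [hr1, e4] at hr
          have hr2 := hacE _ _ _ hr
          exact ⟨fun _ s => i1 hr1 (Y :: β' ++ s), fun hne => absurd hr2 hne⟩
        · obtain ⟨q1, p1, k1, k2, k3⟩ := i2 hr1
          have hβ2 : (Y :: β').length ≤ K := by
            simp only [List.length_cons] at hβ ⊢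
            omega
          obtain ⟨l1, l2⟩ := ih2 q1 (Y :: β') p1 hβ2 k2 (by rw [k1, e5 q1 p1 k2])
          refine ⟨fun hv s => ?_, fun hv => ?_⟩
          · obtain ⟨l, q2, p2, s2, hq2, hrun⟩ := l1 hv s
            obtain ⟨l', hrun'⟩ := k3 (Y :: β' ++ s)
            exact ⟨l' + l, q2, p2, s2, hq2, run_trans M w l' l _ _ _ hrun' hrun⟩
          · obtain ⟨q2, p2, a1, a2, a3⟩ := l2 hv
            refine ⟨q2, p2, a1, a2, fun s => ?_⟩
            obtain ⟨l', hrun'⟩ := k3 (Y :: β' ++ s)
            obtain ⟨l, hrun⟩ := a3 s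
            exact ⟨l' + l, run_trans M w l' l _ _ _ hrun' hrun⟩

end Pool.Agent.Helper84.DC
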